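import Pool.Agent.H4.RR.FinalK

/-!
# Lehmer bounds for real radical towers

Let `G = 𝔾_m` and let `K` be a number field. For subgroups `Γ` of `G(K̄)` generated by a group `Γ_0` of
roots of unity and by torsion free groups `Γ_1, …, Γ_r` of radicals of pairwise coprime squarefree
integers `b_1, …, b_r`, with root orders composed of primes of pairwise disjoint sets
`T_0, T_1, …, T_r`, where `q² ∤ b_i^(q-1) - 1` for `q ∈ T_i`, `i ≥ 1`, we prove the Lehmer inequality
`[L(α) : L] h(α) ≥ c`, `L = K(Γ)`, for all `α` whose norm to `L` is not in the saturation of `Γ`,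
in particular `h(α) ≥ c` for all `α ∈ L` outside the saturation. Here `c` depends only on `K`, `r` and
a prime `p ∉ T_0`.
-/

set_option autoImplicit false

open NumberField IntermediateField

namespace Pool.Agent.Results.MP_187c26_nt.RadicalTowers

section Definitions

variable {K : Type} [Field K]

/-- The field generated over `K` by the elements of `Γ`. -/
noncomputable def fieldOf (Γ : Subgroup (AlgebraicClosure K)ˣ) :
    IntermediateField K (AlgebraicClosure K) :=
  IntermediateField.adjoin K {y | ∃ γ ∈ Γ, y = (γ : AlgebraicClosure K)}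

/-- The saturation of `Γ`. -/
def sat (Γ : Subgroup (AlgebraicClosure K)ˣ) : Set (AlgebraicClosure K)ˣ :=
  {x | ∃ n : ℕ, 1 ≤ n ∧ x ^ n ∈ Γ}

/-- The degree of `α` over `L`. -/
noncomputable def degreeOver (L : IntermediateField K (AlgebraicClosure K))
    (α : AlgebraicClosure K) : ℕ :=
  Module.finrank L L⟮α⟯

/-- The norm of `α` from `L(α)` to `L`, as an element of the algebraic closure. -/
noncomputable def normTo (L : IntermediateField K (AlgebraicClosure K))
    (α : AlgebraicClosure K) : AlgebraicClosure K :=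
  algebraMap L (AlgebraicClosure K) (Algebra.norm L (AdjoinSimple.gen L α))

/-- The absolute logarithmic Weil height is at least `c` on `K(Γ)` outside the saturation of `Γ`,
and, more generally, `[K(Γ)(α) : K(Γ)] h(α) ≥ c` for every `α ≠ 0` algebraic over `K` whose norm to
`K(Γ)` is outside the saturation of `Γ`. -/
def LehmerBound [CharZero K] (Γ : Subgroup (AlgebraicClosure K)ˣ) (c : ℝ) : Prop :=
  (∀ α : (AlgebraicClosure K)ˣ, (α : AlgebraicClosure K) ∈ fieldOf Γ → α ∉ sat Γ →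
    c ≤ absLogHeight₁ (α : AlgebraicClosure K)) ∧
  (∀ α : (AlgebraicClosure K)ˣ,
    (∀ g ∈ sat Γ, (g : AlgebraicClosure K) ≠ normTo (fieldOf Γ) (α : AlgebraicClosure K)) →
    c ≤ degreeOver (fieldOf Γ) (α : AlgebraicClosure K) *
      absLogHeight₁ (α : AlgebraicClosure K))

/-- `Γ` is a torsion free group of radicals of `b`, with root orders composed of primes in `T`:
`b ∈ Γ`, `Γ` has no nontrivial torsion, and every element of `Γ` has a power `γ^N`, `N ≥ 1` with all
prime factors in `T`, that is an integral power of `b`. -/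
def IsRadicalGroup (b : ℕ) (T : Set ℕ) (Γ : Subgroup (AlgebraicClosure K)ˣ) : Prop :=
  (∀ γ ∈ Γ, ∀ n : ℕ, 1 ≤ n → γ ^ n = 1 → γ = 1) ∧
  (∃ β ∈ Γ, (β : AlgebraicClosure K) = (b : AlgebraicClosure K)) ∧
  ∀ γ ∈ Γ, ∃ N : ℕ, 1 ≤ N ∧ (∀ q : ℕ, q.Prime → q ∣ N → q ∈ T) ∧
    ∃ k : ℤ, (γ : AlgebraicClosure K) ^ N = (b : AlgebraicClosure K) ^ k

/-- `Γ` consists of roots of unity of orders composed of primes in `T`. -/
def IsTorsionGroup (T : Set ℕ) (Γ : Subgroup (AlgebraicClosure K)ˣ) : Prop :=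
  ∀ γ ∈ Γ, ∃ N : ℕ, 1 ≤ N ∧ (∀ q : ℕ, q.Prime → q ∣ N → q ∈ T) ∧ γ ^ N = 1

end Definitions

/-- The conditions on the integers `b i` and the sets of primes `T i` and `T0`: the `b i ≥ 2` are
squarefree, pairwise coprime and prime to the discriminant of `K`; the `T i` are sets of primes `q`
with `q² ∤ (b i)^(q-1) - 1` not dividing the discriminant of `K`; `T0` and the `T i` are pairwise
disjoint; primes of `T i` do not divide `b j` for `j ≠ i`, primes of `T0` do not divide any `b i`. -/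
def Admissible (K : Type) [Field K] [NumberField K] {r : ℕ} (b : Fin r → ℕ) (T : Fin r → Set ℕ)
    (T0 : Set ℕ) : Prop :=
  (∀ i, 2 ≤ b i ∧ Squarefree (b i) ∧ IsCoprime (discr K) (b i : ℤ)) ∧
  (∀ i, ∀ q ∈ T i, q.Prime ∧ ¬ q ^ 2 ∣ b i ^ (q - 1) - 1 ∧ ¬ (q : ℤ) ∣ discr K) ∧
  (∀ i j, i ≠ j → Nat.Coprime (b i) (b j) ∧ Disjoint (T i) (T j) ∧ ∀ q ∈ T i, ¬ q ∣ b j) ∧
  (∀ i, Disjoint T0 (T i) ∧ ∀ q ∈ T0, ¬ q ∣ b i)

/-- For `α ∈ L` the norm of `α` to `L` is `α`. -/
lemma normTo_of_mem {K : Type} [Field K] (L : IntermediateField K (AlgebraicClosure K))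
    (α : AlgebraicClosure K) (hα : α ∈ L) : degreeOver L α = 1 ∧ normTo L α = α := by
  have hbot : L⟮α⟯ = ⊥ := by
    rw [adjoin_simple_eq_bot_iff, IntermediateField.mem_bot]
    exact ⟨⟨α, hα⟩, rfl⟩
  have hfr : Module.finrank L L⟮α⟯ = 1 := by
    rw [hbot]
    exact IntermediateField.finrank_bot
  refine ⟨hfr, ?_⟩
  have h1 : AdjoinSimple.gen L α = algebraMap L L⟮α⟯ ⟨α, hα⟩ := rfl
  unfold normTo
  rw [h1, Algebra.norm_algebraMap, hfr, pow_one]
  rfl

lemma lehmerBound_of {K : Type} [Field K] [CharZero K] (Γ : Subgroup (AlgebraicClosure K)ˣ) (c : ℝ)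
    (h : ∀ α : (AlgebraicClosure K)ˣ,
      (∀ g ∈ sat Γ, (g : AlgebraicClosure K) ≠ normTo (fieldOf Γ) (α : AlgebraicClosure K)) →
      c ≤ degreeOver (fieldOf Γ) (α : AlgebraicClosure K) *
        absLogHeight₁ (α : AlgebraicClosure K)) : LehmerBound Γ c := by
  refine ⟨fun α hα hs => ?_, h⟩
  obtain ⟨h1, h2⟩ := normTo_of_mem (fieldOf Γ) (α : AlgebraicClosure K) hα
  have h3 := h α (by
    intro g hg hga
    rw [h2] at hga
    exact hs (Units.ext hga ▸ hg))
  rw [h1, Nat.cast_one, one_mul] at h3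
  exact h3

/-- **Lehmer bounds for real radical towers.** For every number field `K`, every `r` and every
prime `p` there is `c > 0` such that `LehmerBound Γ c` holds for every `Γ = Γ_0 Γ_1 ⋯ Γ_r`, where
`Γ_0` consists of roots of unity of orders composed of primes of `T_0`, `p ∉ T_0`, and `Γ_i` is a
torsion free group of radicals of `b_i` with root orders composed of primes of `T_i`, for all
admissible `b_1, …, b_r`, `T_0, …, T_r`. -/
theorem result (K : Type) [Field K] [NumberField K] (r p : ℕ) (hp : p.Prime) :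
    ∃ c : ℝ, 0 < c ∧
      ∀ (b : Fin r → ℕ) (T : Fin r → Set ℕ) (T0 : Set ℕ)
        (Γ0 : Subgroup (AlgebraicClosure K)ˣ) (Γ : Fin r → Subgroup (AlgebraicClosure K)ˣ),
        Admissible K b T T0 → p ∉ T0 → IsTorsionGroup T0 Γ0 →
        (∀ i, IsRadicalGroup (b i) (T i) (Γ i)) →
        LehmerBound (Γ0 ⊔ ⨆ i, Γ i) c := by
  obtain ⟨c, hc, h⟩ := Pool.Agent.H4.RR.partK K r p hp
  refine ⟨c, hc, fun b T T0 Γ0 Γ hadm hpT hΓ0 hΓ => lehmerBound_of _ _ fun α hα => ?_⟩
  obtain ⟨h1, h2, h3, h4⟩ := hadm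
  exact h b T T0 Γ0 Γ
    ⟨fun i => ⟨(h1 i).1, (h1 i).2.1⟩, fun i q hq => ⟨(h2 i q hq).1, (h2 i q hq).2.1⟩, h3⟩
    (fun i => ⟨(h1 i).2.2, fun q hq => (h2 i q hq).2.2⟩) hpT h4 hΓ hΓ0 α hα

end Pool.Agent.Results.MP_187c26_nt.RadicalTowers
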