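import Pool.Agent.H4.OG.Final
import Pool.Agent.H4.RR.Final

/-!
# Lehmer bounds for sums of radicals

Let `K` be a number field and let `b_1, …, b_r` be pairwise coprime nonzero nonunits of the ring of
integers of `K` (for instance distinct primes, or generators of powers of distinct prime ideals).
Let `Γ_b` be the group of all radicals of the group `⟨b_1, …, b_r⟩`: all `x ∈ K̄*` with
`x^n ∈ ⟨b_1, …, b_r⟩` for some `n ≥ 1`. This is a saturated group of rank `r`; it contains all roots of
unity. Let `R_b` be the ring generated by the algebraic integers of `K(μ_∞)` and those of `Γ_b`. An element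
`α ≠ 0` is regular if `c α ∈ R_b` and `(1 - c) α⁻¹ ∈ R_b` for some `c ∈ R_b` (the fractional ideal
generated by `1` and `α` is invertible). All nonzero `α ∈ R_b` (`c = 1`) and all quotients `α = v / u`
of elements with `s u + t v = 1`, `s, t ∈ R_b`, are regular.

We prove: there is `c > 0` with `h(α) ≥ c` for all regular `α ∉ Γ_b`, and `[L(α) : L] h(α) ≥ c`,
`L = K(Γ)`, for every group `Γ ≤ Γ_b` and every `α ≠ 0` whose norm to `L` is regular and not in `Γ_b`.
-/

set_option autoImplicit false

open NumberField IntermediateField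

namespace Pool.Agent.Results.MP_187c26_nt.SumsOfRadicals

section Definitions

variable {K : Type} [Field K]

/-- The field generated over `K` by the elements of `Γ`. -/
noncomputable def fieldOf (Γ : Subgroup (AlgebraicClosure K)ˣ) :
    IntermediateField K (AlgebraicClosure K) :=
  IntermediateField.adjoin K {y | ∃ γ ∈ Γ, y = (γ : AlgebraicClosure K)}

/-- The degree of `α` over `L`. -/
noncomputable def degreeOver (L : IntermediateField K (AlgebraicClosure K))
    (α : AlgebraicClosure K) : ℕ :=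
  Module.finrank L L⟮α⟯

/-- The norm of `α` from `L(α)` to `L`, as an element of the algebraic closure. -/
noncomputable def normTo (L : IntermediateField K (AlgebraicClosure K))
    (α : AlgebraicClosure K) : AlgebraicClosure K :=
  algebraMap L (AlgebraicClosure K) (Algebra.norm L (AdjoinSimple.gen L α))

/-- All radicals of the group generated by the `b i`: the `x ∈ K̄*` such that `x ^ n` lies in the group
generated by the `b i` for some `n ≥ 1`. -/
noncomputable def radicals {r : ℕ} (b : Fin r → 𝓞 K) : Subgroup (AlgebraicClosure K)ˣ where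
  carrier := {x | ∃ n : ℕ, 1 ≤ n ∧ x ^ n ∈ Subgroup.closure
    {u : (AlgebraicClosure K)ˣ | ∃ i, (u : AlgebraicClosure K) =
      algebraMap K (AlgebraicClosure K) (b i : K)}}
  one_mem' := ⟨1, le_rfl, by rw [pow_one]; exact Subgroup.one_mem _⟩
  mul_mem' := by
    rintro a b ⟨n, hn, ha⟩ ⟨k, hk, hb⟩
    refine ⟨n * k, Nat.mul_pos hn hk, ?_⟩
    rw [mul_pow, pow_mul, mul_comm n k, pow_mul b]
    exact Subgroup.mul_mem _ (Subgroup.pow_mem _ ha _) (Subgroup.pow_mem _ hb _)
  inv_mem' := by
    rintro a ⟨n, hn, ha⟩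
    exact ⟨n, hn, by rw [inv_pow]; exact Subgroup.inv_mem _ ha⟩

/-- The field `K(μ_∞)` generated over `K` by all roots of unity. -/
noncomputable def cyclotomicField (K : Type) [Field K] :
    IntermediateField K (AlgebraicClosure K) :=
  IntermediateField.adjoin K {ξ : AlgebraicClosure K | ∃ n : ℕ, 1 ≤ n ∧ ξ ^ n = 1}

/-- The ring generated by the algebraic integers of `K(μ_∞)` and those of `radicals b`. -/
noncomputable def radRing {r : ℕ} (b : Fin r → 𝓞 K) : Subring (AlgebraicClosure K) :=
  Subring.closure {z | IsIntegral ℤ z ∧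
    (z ∈ cyclotomicField K ∨ ∃ γ ∈ radicals b, z = (γ : AlgebraicClosure K))}

/-- `α` is regular: `c α` and `(1 - c) α⁻¹` lie in `radRing b` for some `c ∈ radRing b`. -/
def IsRegular {r : ℕ} (b : Fin r → 𝓞 K) (α : AlgebraicClosure K) : Prop :=
  ∃ c ∈ radRing b, c * α ∈ radRing b ∧ (1 - c) * α⁻¹ ∈ radRing b

/-- The absolute logarithmic Weil height of every regular `α ∉ radicals b` is at least `c`, and, more
generally, `[L(α) : L] h(α) ≥ c`, `L = K(Γ)`, for every group `Γ` of radicals and every `α ≠ 0` whose norm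
to `L` is regular and not in `radicals b`. -/
def LehmerBound [CharZero K] {r : ℕ} (b : Fin r → 𝓞 K) (c : ℝ) : Prop :=
  (∀ α : (AlgebraicClosure K)ˣ, IsRegular b (α : AlgebraicClosure K) → α ∉ radicals b →
    c ≤ absLogHeight₁ (α : AlgebraicClosure K)) ∧
  (∀ Γ : Subgroup (AlgebraicClosure K)ˣ, Γ ≤ radicals b → ∀ α : (AlgebraicClosure K)ˣ,
    IsRegular b (normTo (fieldOf Γ) (α : AlgebraicClosure K)) →
    (∀ g ∈ radicals b, (g : AlgebraicClosure K) ≠ normTo (fieldOf Γ) (α : AlgebraicClosure K)) →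
    c ≤ degreeOver (fieldOf Γ) (α : AlgebraicClosure K) *
      absLogHeight₁ (α : AlgebraicClosure K))

end Definitions

lemma closure_pow {G : Type} [CommGroup G] {ι : Type} [Fintype ι] [DecidableEq ι] (β : ι → G) :
    ∀ x : G, x ∈ Subgroup.closure {u : G | ∃ i, u = β i} ↔ ∃ e : ι → ℤ, x = ∏ i, β i ^ e i := by
  intro x
  constructor
  · intro hx
    induction hx using Subgroup.closure_induction with
    | mem y hy =>
      obtain ⟨i, rfl⟩ := hy
      refine ⟨Pi.single i 1, ?_⟩
      rw [Finset.prod_eq_single i]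
      · simp
      · intro j _ hj
        rw [Pi.single_eq_of_ne hj, zpow_zero]
      · intro h
        exact absurd (Finset.mem_univ i) h
    | one => exact ⟨0, by simp⟩
    | mul y z _ _ hy hz =>
      obtain ⟨e, rfl⟩ := hy
      obtain ⟨f, rfl⟩ := hz
      refine ⟨e + f, ?_⟩
      rw [← Finset.prod_mul_distrib]
      exact Finset.prod_congr rfl fun i _ => (zpow_add _ _ _).symm
    | inv y _ hy =>
      obtain ⟨e, rfl⟩ := hy
      refine ⟨-e, ?_⟩
      rw [← Finset.prod_inv_distrib]
      exact Finset.prod_congr rfl fun i _ => (zpow_neg _ _).symm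
  · rintro ⟨e, rfl⟩
    apply Subgroup.prod_mem
    intro i _
    exact Subgroup.zpow_mem _ (Subgroup.subset_closure (Set.mem_setOf.mpr ⟨i, rfl⟩)) _

/-- **Lehmer bounds for sums of radicals.** Let `K` be a number field and let the `b i` be pairwise
coprime nonzero nonunits of the ring of integers of `K`. There is `c > 0` such that every regular
`α ∉ Γ_b` has height at least `c`, and `[L(α) : L] h(α) ≥ c`, `L = K(Γ)`, for all groups `Γ ≤ Γ_b` and all `α`
whose norm to `L` is regular and not in `Γ_b`. -/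
theorem result (K : Type) [Field K] [NumberField K] (r : ℕ) (b : Fin r → 𝓞 K)
    (hb : ∀ i, b i ≠ 0 ∧ ¬ IsUnit (b i)) (hcop : ∀ i j, i ≠ j → IsCoprime (b i) (b j)) :
    ∃ c : ℝ, 0 < c ∧ LehmerBound b c := by
  classical
  have hb0 : ∀ i, algebraMap K (AlgebraicClosure K) (b i : K) ≠ 0 := by
    intro i
    rw [Ne, map_eq_zero]
    exact fun h => (hb i).1 (RingOfIntegers.ext h)
  set β : Fin r → (AlgebraicClosure K)ˣ := fun i => Units.mk0 _ (hb0 i) with hβdef
  have hβ : ∀ i, (β i : AlgebraicClosure K) = algebraMap K (AlgebraicClosure K) (b i : K) :=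
    fun i => rfl
  have hset : {u : (AlgebraicClosure K)ˣ | ∃ i, (u : AlgebraicClosure K) =
      algebraMap K (AlgebraicClosure K) (b i : K)} = {u | ∃ i, u = β i} := by
    ext u
    constructor
    · rintro ⟨i, hi⟩
      exact ⟨i, Units.ext hi⟩
    · rintro ⟨i, hi⟩
      exact ⟨i, by rw [hi, hβ]⟩
  have hsat : ∀ x, x ∈ radicals b ↔ x ∈ Pool.Agent.H4.OG.satG β := by
    intro x
    constructor
    · rintro ⟨n, hn, hx⟩
      rw [hset, closure_pow] at hx
      obtain ⟨e, he⟩ := hx
      exact ⟨n, hn, e, he⟩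
    · rintro ⟨n, hn, e, he⟩
      refine ⟨n, hn, ?_⟩
      rw [hset, closure_pow]
      exact ⟨e, he⟩
  have hring : radRing b = Pool.Agent.H4.OG.radRingK K (AlgebraicClosure K) β := by
    unfold radRing Pool.Agent.H4.OG.radRingK
    congr 1
    ext z
    constructor
    · rintro ⟨h1, h2 | ⟨γ, hγ, h3⟩⟩
      · exact ⟨h1, Or.inl h2⟩
      · exact ⟨h1, Or.inr ⟨γ, (hsat γ).1 hγ, h3⟩⟩
    · rintro ⟨h1, h2 | ⟨γ, hγ, h3⟩⟩
      · exact ⟨h1, Or.inl h2⟩
      · exact ⟨h1, Or.inr ⟨γ, (hsat γ).2 hγ, h3⟩⟩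
  obtain ⟨c, hc, hmain⟩ := Pool.Agent.H4.OG.main_regular K (AlgebraicClosure K) r b
    (fun i => (hb i).2) hcop β hβ
  have key : ∀ α : (AlgebraicClosure K)ˣ, IsRegular b (α : AlgebraicClosure K) →
      α ∉ radicals b → c ≤ absLogHeight₁ (α : AlgebraicClosure K) := by
    rintro α ⟨t, ht, h1, h2⟩ hα
    rw [hring] at ht h1 h2
    exact hmain α ⟨t, ht, h1, h2⟩ (fun h => hα ((hsat α).2 h))
  refine ⟨c, hc, key, fun Γ _ α hreg hα => ?_⟩
  have h0 := Pool.Agent.H4.RR.normTo_ne_zero (fieldOf Γ) (α : AlgebraicClosure K) α.ne_zero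
  have h1 := key (Units.mk0 _ h0) hreg (fun hS => hα _ hS rfl)
  exact h1.trans (Pool.Agent.H4.RR.norm_height_le K (fieldOf Γ) (α : AlgebraicClosure K))

end Pool.Agent.Results.MP_187c26_nt.SumsOfRadicals
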