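import Pool.Agent.H4.OH.Final
import Pool.Agent.H4.RR.Final

/-!
# Lehmer bounds for sums of radicals of rational numbers

Let `S` be a finite set of `r` primes and let `Γ_S` be the group of all radicals of the rational
numbers composed of primes of `S`: all `x ∈ ℚ̄*` with `x^n ∈ ⟨S⟩` for some `n ≥ 1`. This is a saturated
group of rank `r`; it contains all roots of unity. Let `R_S` be the ring generated by the algebraic
integers in `Γ_S`. An element `α ≠ 0` is regular if `c α ∈ R_S` and `(1 - c) α⁻¹ ∈ R_S` for some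
`c ∈ R_S` (the ideal generated by `1` and `α` is invertible). All nonzero `α ∈ R_S` (`c = 1`) and all
quotients `α = v / u` of elements with `s u + t v = 1`, `s, t ∈ R_S`, are regular.

We prove `h(α) ≥ 1 / (4 r + 18)` for all regular `α ∉ Γ_S`, and `[L(α) : L] h(α) ≥ 1 / (4 r + 18)`,
`L = ℚ(Γ)`, for every group `Γ ≤ Γ_S` and every `α ≠ 0` whose norm to `L` is regular and not in `Γ_S`.
-/

set_option autoImplicit false

open NumberField IntermediateField

namespace Pool.Agent.H4.Old.SumsOfRadicalsQ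

/-- All radicals of the rational numbers composed of the elements of `S`: the `x ∈ ℚ̄*` such that
`x ^ n` lies in the group generated by `S` for some `n ≥ 1`. -/
noncomputable def radicals (S : Finset ℕ) : Subgroup (AlgebraicClosure ℚ)ˣ where
  carrier := {x | ∃ n : ℕ, 1 ≤ n ∧ x ^ n ∈ Subgroup.closure
    {u : (AlgebraicClosure ℚ)ˣ | ∃ p ∈ S, (u : AlgebraicClosure ℚ) = (p : AlgebraicClosure ℚ)}}
  one_mem' := ⟨1, le_rfl, by rw [pow_one]; exact Subgroup.one_mem _⟩
  mul_mem' := by
    rintro a b ⟨n, hn, ha⟩ ⟨k, hk, hb⟩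
    refine ⟨n * k, Nat.mul_pos hn hk, ?_⟩
    rw [mul_pow, pow_mul, mul_comm n k, pow_mul b]
    exact Subgroup.mul_mem _ (Subgroup.pow_mem _ ha _) (Subgroup.pow_mem _ hb _)
  inv_mem' := by
    rintro a ⟨n, hn, ha⟩
    exact ⟨n, hn, by rw [inv_pow]; exact Subgroup.inv_mem _ ha⟩

/-- The ring generated by the algebraic integers in `radicals S`. -/
noncomputable def radRing (S : Finset ℕ) : Subring (AlgebraicClosure ℚ) :=
  Subring.closure {z | IsIntegral ℤ z ∧ ∃ γ ∈ radicals S, z = (γ : AlgebraicClosure ℚ)}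

/-- `α` is regular: `c α` and `(1 - c) α⁻¹` lie in `radRing S` for some `c ∈ radRing S`. -/
def IsRegular (S : Finset ℕ) (α : AlgebraicClosure ℚ) : Prop :=
  ∃ c ∈ radRing S, c * α ∈ radRing S ∧ (1 - c) * α⁻¹ ∈ radRing S

/-- The field generated over `ℚ` by the elements of `Γ`. -/
noncomputable def fieldOf (Γ : Subgroup (AlgebraicClosure ℚ)ˣ) :
    IntermediateField ℚ (AlgebraicClosure ℚ) :=
  IntermediateField.adjoin ℚ {y | ∃ γ ∈ Γ, y = (γ : AlgebraicClosure ℚ)}

/-- The degree of `α` over `L`. -/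
noncomputable def degreeOver (L : IntermediateField ℚ (AlgebraicClosure ℚ))
    (α : AlgebraicClosure ℚ) : ℕ :=
  Module.finrank L L⟮α⟯

/-- The norm of `α` from `L(α)` to `L`, as an element of the algebraic closure. -/
noncomputable def normTo (L : IntermediateField ℚ (AlgebraicClosure ℚ))
    (α : AlgebraicClosure ℚ) : AlgebraicClosure ℚ :=
  algebraMap L (AlgebraicClosure ℚ) (Algebra.norm L (AdjoinSimple.gen L α))

/-- The absolute logarithmic Weil height of every regular `α ∉ radicals S` is at least `c`, and, more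
generally, `[L(α) : L] h(α) ≥ c`, `L = ℚ(Γ)`, for every group `Γ` of radicals and every `α ≠ 0` whose norm
to `L` is regular and not in `radicals S`. -/
def LehmerBound (S : Finset ℕ) (c : ℝ) : Prop :=
  (∀ α : (AlgebraicClosure ℚ)ˣ, IsRegular S α → α ∉ radicals S →
    c ≤ absLogHeight₁ (α : AlgebraicClosure ℚ)) ∧
  (∀ Γ : Subgroup (AlgebraicClosure ℚ)ˣ, Γ ≤ radicals S → ∀ α : (AlgebraicClosure ℚ)ˣ,
    IsRegular S (normTo (fieldOf Γ) (α : AlgebraicClosure ℚ)) →
    (∀ g ∈ radicals S, (g : AlgebraicClosure ℚ) ≠ normTo (fieldOf Γ) (α : AlgebraicClosure ℚ)) →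
    c ≤ degreeOver (fieldOf Γ) (α : AlgebraicClosure ℚ) *
      absLogHeight₁ (α : AlgebraicClosure ℚ))

/-- **Lehmer bounds for sums of radicals.** For every finite set `S` of primes, with
`c = 1 / (4 |S| + 18)`: every regular `α ∉ Γ_S` has height at least `c`, and `[L(α) : L] h(α) ≥ c`,
`L = ℚ(Γ)`, for all `Γ ≤ Γ_S` and all `α` whose norm to `L` is regular and not in `Γ_S`. -/
theorem result (S : Finset ℕ) (hS : ∀ p ∈ S, p.Prime) :
    LehmerBound S (1 / (4 * (S.card : ℝ) + 18)) := by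
  have hQ : Algebra.IsAlgebraic ℚ (AlgebraicClosure ℚ) := by
    have h := AlgebraicClosure.isAlgebraic ℚ
    rwa [Subsingleton.elim (AlgebraicClosure.instAlgebra ℚ)
      (DivisionRing.toRatAlgebra : Algebra ℚ (AlgebraicClosure ℚ))] at h
  have key : ∀ α : (AlgebraicClosure ℚ)ˣ, IsRegular S α → α ∉ radicals S →
      1 / (4 * (S.card : ℝ) + 18) ≤ absLogHeight₁ (α : AlgebraicClosure ℚ) :=
    fun α hreg hα => Pool.Agent.H4.OH.main_regular S hS α hreg hα
  refine ⟨key, fun Γ _ α hreg hα => ?_⟩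
  have h0 := Pool.Agent.H4.RR.normTo_ne_zero (fieldOf Γ) (α : AlgebraicClosure ℚ) α.ne_zero
  have h1 := key (Units.mk0 _ h0) hreg (fun hS => hα _ hS rfl)
  exact h1.trans (Pool.Agent.H4.RR.norm_height_le ℚ (fieldOf Γ) (α : AlgebraicClosure ℚ))

end Pool.Agent.H4.Old.SumsOfRadicalsQ
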